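import Pool.Agent.Q35.TB.Stm
import Pool.Agent.Q190.TT.Gln
import Pool.Agent.Q137.TT.Plc
import Pool.Agent.Q35.TT.TwistB

/-!
# Project TB (helper35), job GLD: the inequalities at all places of all extensions
-/

set_option autoImplicit false

open Pool.Agent.Y720.MZ MvPolynomial Height AdmissibleAbsValues Pool.Agent.Q35.TT
open Pool.Agent.Q35.TB NumberField IsDedekindDomain

namespace Pool.Agent.Q129.TB.Gld

open Pool.Agent.Q190.TT.Gln

section

variable {K : Type} [Field K] {n : ℕ}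

theorem lc_le_na' {v : AbsoluteValue K ℝ} (hv : IsNonarchimedean v) (f : MvPolynomial (Fin n) K)
    (hf : ∀ j, f.degreeOf j ≤ 4) {A : ℝ} (hA : 0 ≤ A) (h1 : ∀ m, v (f.coeff m) ≤ A)
    (z : Fin n → K) (i : Fin n) (k : Fin 5) :
    v (lc f (af z) i k) ≤ A * ∏ j ∈ Finset.univ.erase i, max 1 (v (z j)) ^ 4 := by
  have hP := P_nonneg v z i
  have key : ∀ s : Finset (Fin n →₀ ℕ), (∀ m ∈ s, m ∈ f.support) →
      v (∑ m ∈ s, f.coeff m * mo m (af z) i) ≤
        A * ∏ j ∈ Finset.univ.erase i, max 1 (v (z j)) ^ 4 := by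
    classical
    intro s
    induction s using Finset.induction_on with
    | empty =>
      intro _
      rw [Finset.sum_empty, map_zero]
      exact mul_nonneg hA hP
    | insert m s hms ih =>
      intro hs
      rw [Finset.sum_insert hms]
      refine (hv _ _).trans (max_le ?_ (ih fun m' hm' => hs m' (Finset.mem_insert_of_mem hm')))
      rw [map_mul]
      have h2 := v_mo v m (fun j => (monomial_le_degreeOf j
        (hs m (Finset.mem_insert_self _ _))).trans (hf j)) z i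
      exact mul_le_mul (h1 m) h2 (v.nonneg _) hA
  exact key _ fun m hm => (Finset.mem_filter.1 hm).1

end

theorem deg_ex {K L : Type} [Field K] [Field L] [Algebra K L] {n : ℕ} (f : MvPolynomial (Fin n) K)
    (hf : ∀ j, f.degreeOf j ≤ 4) (j : Fin n) : (ex L f).degreeOf j ≤ 4 := by
  have h := hf j
  rw [degreeOf_le_iff] at h ⊢
  intro m hm
  refine h m ?_
  rw [ex, support_map_of_injective _ (algebraMap K L).injective] at hm
  exact hm

theorem sc_ex {K L : Type} [Field K] [Field L] [Algebra K L] {n : ℕ} (v : AbsoluteValue L ℝ)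
    (f : MvPolynomial (Fin n) K) :
    sc v (ex L f) = 1 + ∑ m ∈ f.support, v (algebraMap K L (f.coeff m)) := by
  unfold sc
  rw [ex, support_map_of_injective _ (algebraMap K L).injective]
  simp only [coeff_map]

/-- the bound of the coefficients at the archimedean places -/
noncomputable def AA {K : Type} [Field K] [NumberField K] {n : ℕ} (f : MvPolynomial (Fin n) K) :
    ℝ := 1 + ∑ ψ : K →+* ℂ, ∑ m ∈ f.support, ‖ψ (f.coeff m)‖

theorem AA_one {K : Type} [Field K] [NumberField K] {n : ℕ} (f : MvPolynomial (Fin n) K) :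
    1 ≤ AA f := by
  unfold AA
  have : 0 ≤ ∑ ψ : K →+* ℂ, ∑ m ∈ f.support, ‖ψ (f.coeff m)‖ :=
    Finset.sum_nonneg fun ψ _ => Finset.sum_nonneg fun m _ => norm_nonneg _
  linarith

theorem sc_le {K L : Type} [Field K] [NumberField K] [Field L] [Algebra K L] {n : ℕ}
    (v : AbsoluteValue L ℝ) (φ : L →+* ℂ) (hφ : ∀ x, ‖φ x‖ = v x) (f : MvPolynomial (Fin n) K) :
    sc v (ex L f) ≤ AA f := by
  rw [sc_ex]
  unfold AA
  have h1 : ∑ m ∈ f.support, v (algebraMap K L (f.coeff m)) =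
      ∑ m ∈ f.support, ‖(φ.comp (algebraMap K L)) (f.coeff m)‖ :=
    Finset.sum_congr rfl fun m _ => by rw [RingHom.comp_apply, hφ]
  rw [h1]
  have := Finset.single_le_sum (f := fun ψ : K →+* ℂ => ∑ m ∈ f.support, ‖ψ (f.coeff m)‖)
    (fun ψ _ => Finset.sum_nonneg fun m _ => norm_nonneg _)
    (Finset.mem_univ (φ.comp (algebraMap K L)))
  linarith

/-- the archimedean places -/
theorem arch_part (h1 : S_ARC) (h2 : S_TRN) (h4 : S_LOX) (K : Type) [Field K] [NumberField K]
    (n : ℕ) (f : MvPolynomial (Fin n) K) (hf : ∀ j, f.degreeOf j ≤ 4) :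
    ∃ B₀ : ℝ, 1 ≤ B₀ ∧ ∀ (L : Type) [Field L] [NumberField L] [Algebra K L] (z : Fin n → L)
      (i : Fin n) (N : ℕ), N ≠ 0 → TorT (lc (ex L f) (af z) i) (z i) N → ∀ k,
        ∀ v ∈ archAbsVal (K := L), v (bd (lc (ex L f) (af z) i) (af z i) k) ^ 2 ≤
          B₀ * (N : ℝ) ^ 4 * v (eval z (ex L f)) * max 1 (v (z i)) ^ 2 *
            ∏ j ∈ Finset.univ.erase i, max 1 (v (z j)) ^ 4 := by
  have hA := AA_one f
  set A := AA f with hAdef
  have hA2 : (1 : ℝ) ≤ A ^ 2 := one_le_pow₀ hA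
  have hA3 : (1 : ℝ) ≤ A ^ 3 := one_le_pow₀ hA
  obtain ⟨B, hB1, hB⟩ := h1 (16 * A ^ 2 + 137 * A ^ 3) (by linarith)
  have h5 := hB ℂ (NormedField.toAbsoluteValue ℂ) (fun n => Complex.norm_natCast n)
  refine ⟨144 * A + 12 * B, by linarith, ?_⟩
  intro L _ _ _ z i N hN hT k v hv
  have hv' : v ∈ NumberField.multisetInfinitePlace L := hv
  rw [NumberField.mem_multisetInfinitePlace] at hv'
  obtain ⟨p, rfl⟩ := (NumberField.isInfinitePlace_iff v).1 hv'
  have hφ : ∀ x, ‖p.embedding x‖ = p.1 x := fun x => p.norm_embedding_eq x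
  have hLB := lbt_of p.embedding p.1 (NormedField.toAbsoluteValue ℂ) hφ h2 h5
  have hn : ∀ m : ℕ, p.1 (m : L) = m := by
    intro m
    rw [← hφ, map_natCast]
    exact Complex.norm_natCast m
  have e3 : p.1 (3 : L) = 3 := by exact_mod_cast hn 3
  have e2 : p.1 (2 : L) = 2 := by exact_mod_cast hn 2
  obtain ⟨m, hm0, hm⟩ := exists_m p.1 z i
  have hN1 : (1 : ℝ) ≤ (N : ℝ) ^ 4 := one_le_pow₀ (by exact_mod_cast Nat.one_le_iff_ne_zero.2 hN)
  have hdeg := deg_ex (L := L) f hf
  have hsc := sc_le p.1 p.embedding hφ f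
  have := h4 L p.1 A (16 * A ^ 2 + 137 * A ^ 3) B ((N : ℝ) ^ 4) N hN hA hB1 hN1 (by linarith)
    (by rw [e3]; linarith) (by rw [e3]; linarith) e2.le e3.le
    (fun a b c x y d ha hb hc hd hd0 ht => hLB a b c x y d ha hb hc hd hd0 N hN ht)
    (lc (ex L f) (af z) i) m hm0
    (fun k => by
      rw [hm]
      exact (lc_le p.1 (ex L f) hdeg z i k).trans
        (mul_le_mul_of_nonneg_right hsc (P_nonneg p.1 z i))) (z i) hT k
  rw [hm, e3, bq_lc (ex L f) hdeg] at this
  have hsq2 : p.1 (bd (lc (ex L f) (af z) i) (af z i) k) =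
    p.1 (bd (lc (ex L f) (af z) i) ![1, z i] k) := rfl
  rw [hsq2]
  have hsq : 0 ≤ p.1 (bd (lc (ex L f) (af z) i) ![1, z i] k) ^ 2 := by positivity
  linarith

/-- an integer and powers at a nonarchimedean place -/
theorem exists_pr {L : Type} [Field L] {v : AbsoluteValue L ℝ} (hv : IsNonarchimedean v) {q : ℕ}
    (hq0 : q ≠ 0) (hq : v (q : L) < 1) :
    ∃ p : ℕ, p.Prime ∧ v (p : L) < 1 ∧ v (q : L) ≤ v (p : L) := by
  induction q using Nat.recOnMul with
  | zero => exact absurd rfl hq0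
  | one => rw [Nat.cast_one, map_one] at hq; exact absurd hq (lt_irrefl _)
  | prime p hp => exact ⟨p, hp, hq, le_rfl⟩
  | mul a b iha ihb =>
    have ha1 : v (a : L) ≤ 1 := hv.apply_natCast_le_one
    have hb1 : v (b : L) ≤ 1 := hv.apply_natCast_le_one
    rw [Nat.cast_mul, map_mul] at hq ⊢
    by_cases ha : v (a : L) < 1
    · obtain ⟨p, h1, h2, h3⟩ := iha (fun h => hq0 (by rw [h, zero_mul])) ha
      refine ⟨p, h1, h2, ?_⟩
      calc v (a : L) * v (b : L) ≤ v (a : L) * 1 := mul_le_mul_of_nonneg_left hb1 (v.nonneg _)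
        _ = v (a : L) := mul_one _
        _ ≤ _ := h3
    · have ha' : v (a : L) = 1 := le_antisymm ha1 (not_lt.1 ha)
      rw [ha', one_mul] at hq ⊢
      exact ihb (fun h => hq0 (by rw [h, mul_zero])) hq

/-- the nonarchimedean places -/
theorem na_part (h3 : S_LBU) (h4 : S_LOX) (h5 : S_LGX) (K : Type) [Field K] [NumberField K]
    (n : ℕ) (f : MvPolynomial (Fin n) K) (hf : ∀ j, f.degreeOf j ≤ 4) :
    ∃ m₀ : ℕ, m₀ ≠ 0 ∧ ∀ (L : Type) [Field L] [NumberField L] [Algebra K L] (z : Fin n → L)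
      (i : Fin n) (N : ℕ), N ≠ 0 → TorT (lc (ex L f) (af z) i) (z i) N → ∀ k,
        ∀ v ∈ nonarchAbsVal (K := L), v (bd (lc (ex L f) (af z) i) (af z i) k) ^ 2 *
          v ((N * m₀ : ℕ) : L) ≤ v (eval z (ex L f)) * max 1 (v (z i)) ^ 2 *
            ∏ j ∈ Finset.univ.erase i, max 1 (v (z j)) ^ 4 := by
  classical
  have halg : Algebra.IsAlgebraic ℤ K := by
    have := (IsFractionRing.comap_isAlgebraic_iff (A := ℤ) (K := ℚ) (C := K)).2 inferInstance
    exact this
  obtain ⟨y, hy0, hy⟩ := Algebra.IsAlgebraic.exists_integral_multiples ℤ (A := K)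
    (f.support.image f.coeff)
  set m₁ : ℕ := y.natAbs with hm₁
  have hm₁0 : m₁ ≠ 0 := Int.natAbs_ne_zero.2 hy0
  set q : ℕ := 6 * m₁ with hq
  have hq0 : q ≠ 0 := Nat.mul_ne_zero (by norm_num) hm₁0
  refine ⟨q ^ 38, pow_ne_zero _ hq0, ?_⟩
  intro L _ _ _ z i N hN hT k v hvna
  have hv : IsNonarchimedean v := isNonarchimedean v hvna
  obtain ⟨P, hPv⟩ := hvna
  have hnat : ∀ n : ℕ, v (n : L) ≤ 1 := fun n => hv.apply_natCast_le_one
  have hdeg := deg_ex (L := L) f hf
  have hm₁L : (m₁ : L) ≠ 0 := by exact_mod_cast hm₁0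
  have hvm : 0 < v (m₁ : L) := v.pos hm₁L
  have hq' : (q : L) ≠ 0 := by exact_mod_cast hq0
  have hvq : 0 < v (q : L) := v.pos hq'
  -- the coefficients
  have hco : ∀ m, v ((ex L f).coeff m) ≤ (v (m₁ : L))⁻¹ := by
    intro m
    rw [ex, coeff_map]
    by_cases hm : m ∈ f.support
    · have h6 := hy (f.coeff m) (Finset.mem_image_of_mem _ hm)
      have h7 : IsIntegral ℤ (algebraMap K L (y • f.coeff m)) := h6.map (algebraMap K L).toIntAlgHom
      have h8 : v (algebraMap K L (y • f.coeff m)) ≤ 1 := by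
        rw [← hPv, NumberField.place_apply]
        exact FinitePlace.norm_le_one (K := L) (v := P)
          (x := (⟨algebraMap K L (y • f.coeff m), h7⟩ : 𝓞 L))
      have h9 : v (algebraMap K L (y • f.coeff m)) =
          v (m₁ : L) * v (algebraMap K L (f.coeff m)) := by
        rw [zsmul_eq_mul, map_mul, map_mul, map_intCast]
        congr 1
        rcases Int.natAbs_eq y with h | h
        · rw [h, ← hm₁]; simp
        · rw [h, ← hm₁]; simp
      rw [h9] at h8
      rw [← one_div, le_div_iff₀ hvm, mul_comm]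
      exact h8
    · rw [notMem_support_iff.1 hm, map_zero, map_zero]
      exact inv_nonneg.2 hvm.le
  have hRn : 0 ≤ v (eval z (ex L f)) * max 1 (v (z i)) ^ 2 *
            ∏ j ∈ Finset.univ.erase i, max 1 (v (z j)) ^ 4 :=
    mul_nonneg (mul_nonneg (v.nonneg _) (by positivity)) (P_nonneg v z i)
  have hN' : (N : L) ≠ 0 := by exact_mod_cast hN
  have hvN : 0 < v (N : L) := v.pos hN'
  have hvN1 := hnat N
  have hqe : v (q : L) = v (6 : L) * v (m₁ : L) := by
    rw [hq, Nat.cast_mul, map_mul]; norm_num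
  have h6e : v (6 : L) = v (2 : L) * v (3 : L) := by
    rw [← map_mul]; norm_num
  have h21 : v (2 : L) ≤ 1 := by exact_mod_cast hnat 2
  have h31 : v (3 : L) ≤ 1 := by exact_mod_cast hnat 3
  have hm1 : v (m₁ : L) ≤ 1 := hnat m₁
  have h20 : 0 < v (2 : L) := v.pos (by norm_num)
  have h30 : 0 < v (3 : L) := v.pos (by norm_num)
  have hmo : v ((N * q ^ 38 : ℕ) : L) = v (N : L) * v (q : L) ^ 38 := by
    rw [Nat.cast_mul, Nat.cast_pow, map_mul, map_pow]
  obtain ⟨m, hm0, hm⟩ := exists_m v z i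
  rw [hmo]
  have hbd : v (bd (lc (ex L f) (af z) i) (af z i) k) =
    v (bd (lc (ex L f) (af z) i) ![1, z i] k) := rfl
  rw [hbd]
  rcases (hnat q).lt_or_eq with hlt | heq
  · -- places over the bad primes
    obtain ⟨p, hp, hp1, hqp⟩ := exists_pr hv hq0 hlt
    have hhalf : v (q : L) * 2 ≤ 1 := by
      have h6 := Pool.Agent.Q137.TT.place_gap P (q : L) (by rw [hPv]; exact hlt)
      rw [hPv] at h6
      have h7 : (2 : ℝ) ≤ (Ideal.absNorm P.asIdeal : ℝ) := by
        have := HeightOneSpectrum.one_lt_absNorm P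
        exact_mod_cast this
      refine le_trans ?_ h6
      exact mul_le_mul_of_nonneg_left h7 hvq.le
    set t : ℝ := (v (q : L))⁻¹ with ht
    have ht2 : 2 ≤ t := by
      rw [ht, ← one_div, le_div_iff₀ hvq]; linarith
    have hqt : v (q : L) = t⁻¹ := by rw [ht, inv_inv]
    have ht0 : 0 < t := by linarith
    have ht1 : 1 ≤ t := by linarith
    have hq3 : v (q : L) ≤ v (3 : L) := by
      rw [hqe, h6e]
      calc v (2 : L) * v (3 : L) * v (m₁ : L) ≤ 1 * v (3 : L) * 1 := by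
            refine mul_le_mul (mul_le_mul_of_nonneg_right h21 h30.le) hm1 hvm.le (by linarith)
        _ = v (3 : L) := by ring
    have hqm : v (q : L) ≤ v (m₁ : L) := by
      rw [hqe, h6e]
      calc v (2 : L) * v (3 : L) * v (m₁ : L) ≤ 1 * 1 * v (m₁ : L) := by
            refine mul_le_mul_of_nonneg_right (mul_le_mul h21 h31 h30.le zero_le_one) hvm.le
        _ = v (m₁ : L) := by ring
    set A : ℝ := (v (m₁ : L))⁻¹ with hA
    have hA1 : 1 ≤ A := (one_le_inv₀ hvm).2 hm1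
    have hAt : A ≤ t := inv_anti₀ hvq hqm
    have h3t : t⁻¹ ≤ v (3 : L) := by rw [← hqt]; exact hq3
    have hpt : (v (p : L))⁻¹ ≤ t := inv_anti₀ hvq hqp
    have hp0 : 0 < v (p : L) := lt_of_lt_of_le hvq hqp
    set u : L := ((q : L) ^ 14)⁻¹ with hu
    have hvu : v u = t ^ 14 := by
      rw [hu, map_inv₀, map_pow, ht, inv_pow]
    have hvu1 : 1 ≤ v u := by rw [hvu]; exact one_le_pow₀ ht1
    have hLB := (h3 L v hv N hN).2 p hp hp1 u hvu1
    have hB1 : 1 ≤ v u ^ 2 / v (p : L) := by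
      rw [le_div_iff₀ hp0, one_mul]
      exact hp1.le.trans (one_le_pow₀ hvu1)
    have h16 : (16 : ℝ) ≤ t ^ 11 := by
      calc (16 : ℝ) ≤ 2 ^ 11 := by norm_num
        _ ≤ t ^ 11 := pow_le_pow_left₀ (by norm_num) ht2 11
    have h137 : (137 : ℝ) ≤ t ^ 8 := by
      calc (137 : ℝ) ≤ 2 ^ 8 := by norm_num
        _ ≤ t ^ 8 := pow_le_pow_left₀ (by norm_num) ht2 8
    have c1 : 16 * A ^ 2 ≤ v u * v 3 := by
      rw [hvu]
      calc 16 * A ^ 2 ≤ t ^ 11 * t ^ 2 := by
            refine mul_le_mul h16 (pow_le_pow_left₀ (by linarith) hAt 2) (by positivity)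
              (by positivity)
        _ = t ^ 14 * t⁻¹ := by field_simp
        _ ≤ t ^ 14 * v 3 := mul_le_mul_of_nonneg_left h3t (by positivity)
    have c2 : 137 * A ^ 3 ≤ v u * v 3 ^ 3 := by
      rw [hvu]
      calc 137 * A ^ 3 ≤ t ^ 8 * t ^ 3 := by
            refine mul_le_mul h137 (pow_le_pow_left₀ (by linarith) hAt 3) (by positivity)
              (by positivity)
        _ = t ^ 14 * t⁻¹ ^ 3 := by field_simp
        _ ≤ t ^ 14 * v 3 ^ 3 := mul_le_mul_of_nonneg_left
            (pow_le_pow_left₀ (by positivity) h3t 3) (by positivity)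
    have main := h4 L v A (v u) (v u ^ 2 / v (p : L)) 1 N hN hA1 hB1 le_rfl (by linarith) c1 c2
      (by linarith) (by linarith) hLB (lc (ex L f) (af z) i) m hm0
      (fun k => by
        rw [hm]
        exact lc_le_na' hv (ex L f) hdeg (by linarith) hco z i k) (z i) hT k
    rw [hm, bq_lc (ex L f) hdeg] at main
    set R := v (eval z (ex L f)) * max 1 (v (z i)) ^ 2 *
            ∏ j ∈ Finset.univ.erase i, max 1 (v (z j)) ^ 4 with hR
    have main2 : v 3 * v (bd (lc (ex L f) (af z) i) ![1, z i] k) ^ 2 ≤ t ^ 37 * R := by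
      refine main.trans ?_
      have e : (144 * A + 12 * (v u ^ 2 / v (p : L))) * 1 * v (eval z (ex L f)) *
          max 1 (v (z i)) ^ 2 * ∏ j ∈ Finset.univ.erase i, max 1 (v (z j)) ^ 4 =
          (144 * A + 12 * (v u ^ 2 / v (p : L))) * R := by rw [hR]; ring
      rw [e]
      refine mul_le_mul_of_nonneg_right ?_ hRn
      have e1 : v u ^ 2 / v (p : L) ≤ t ^ 29 := by
        rw [hvu, div_eq_mul_inv]
        calc (t ^ 14) ^ 2 * (v (p : L))⁻¹ ≤ (t ^ 14) ^ 2 * t :=
              mul_le_mul_of_nonneg_left hpt (by positivity)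
          _ = t ^ 29 := by ring
      have e2 : A ≤ t ^ 29 := hAt.trans (le_self_pow₀ ht1 (by norm_num))
      have e3 : (156 : ℝ) ≤ t ^ 8 := by
        calc (156 : ℝ) ≤ 2 ^ 8 := by norm_num
          _ ≤ t ^ 8 := pow_le_pow_left₀ (by norm_num) ht2 8
      calc 144 * A + 12 * (v u ^ 2 / v (p : L)) ≤ 144 * t ^ 29 + 12 * t ^ 29 := by linarith
        _ = 156 * t ^ 29 := by ring
        _ ≤ t ^ 8 * t ^ 29 := mul_le_mul_of_nonneg_right e3 (by positivity)
        _ = t ^ 37 := by ring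
    have hbn : 0 ≤ v (bd (lc (ex L f) (af z) i) ![1, z i] k) ^ 2 := by positivity
    have main3 : t⁻¹ * v (bd (lc (ex L f) (af z) i) ![1, z i] k) ^ 2 ≤ t ^ 37 * R :=
      (mul_le_mul_of_nonneg_right h3t hbn).trans main2
    have main4 : v (bd (lc (ex L f) (af z) i) ![1, z i] k) ^ 2 ≤ t ^ 38 * R := by
      have := mul_le_mul_of_nonneg_left main3 ht0.le
      rw [← mul_assoc, mul_inv_cancel₀ ht0.ne', one_mul] at this
      calc _ ≤ t * (t ^ 37 * R) := this
        _ = t ^ 38 * R := by ring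
    calc v (bd (lc (ex L f) (af z) i) ![1, z i] k) ^ 2 * (v (N : L) * v (q : L) ^ 38)
        ≤ (t ^ 38 * R) * (1 * v (q : L) ^ 38) := by
          refine mul_le_mul main4 (mul_le_mul_of_nonneg_right hvN1 (by positivity))
            (by positivity) (mul_nonneg (by positivity) hRn)
      _ = R * (t ^ 38 * t⁻¹ ^ 38) := by rw [hqt]; ring
      _ = R := by rw [← mul_pow, mul_inv_cancel₀ ht0.ne', one_pow, mul_one]
  · -- good places
    have hm1' : v (m₁ : L) = 1 := by
      refine le_antisymm hm1 ?_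
      have h7 : v (q : L) ≤ v (m₁ : L) := by
        rw [hqe, h6e]
        calc v (2 : L) * v (3 : L) * v (m₁ : L) ≤ 1 * 1 * v (m₁ : L) := by
              refine mul_le_mul_of_nonneg_right (mul_le_mul h21 h31 h30.le zero_le_one) hvm.le
          _ = v (m₁ : L) := by ring
      rw [← heq]; exact h7
    rw [hm1', mul_one, h6e] at hqe
    have h2' : v (2 : L) = 1 := by
      refine le_antisymm h21 ?_
      rw [← heq, hqe]
      calc v (2 : L) * v (3 : L) ≤ v (2 : L) * 1 := mul_le_mul_of_nonneg_left h31 h20.le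
        _ = _ := mul_one _
    have h3' : v (3 : L) = 1 := by
      rw [h2', one_mul] at hqe
      rw [← hqe, heq]
    have hLB := (h3 L v hv N hN).1 h2' h3'
    have hθ : 1 ≤ (v (N : L))⁻¹ := (one_le_inv₀ hvN).2 hvN1
    have main := h5 L v (v (N : L))⁻¹ N hv h2' h3' hN hθ hLB (lc (ex L f) (af z) i) m hm0
      (fun k => by
        rw [hm]
        have := lc_le_na' hv (ex L f) hdeg (A := 1) zero_le_one
          (fun m => by have := hco m; rwa [hm1', inv_one] at this) z i k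
        rwa [one_mul] at this) (z i) hT k
    rw [hm, bq_lc (ex L f) hdeg] at main
    rw [heq, one_pow, mul_one]
    calc v (bd (lc (ex L f) (af z) i) ![1, z i] k) ^ 2 * v (N : L)
        ≤ ((v (N : L))⁻¹ * v (eval z (ex L f)) * max 1 (v (z i)) ^ 2 *
            ∏ j ∈ Finset.univ.erase i, max 1 (v (z j)) ^ 4) * v (N : L) :=
          mul_le_mul_of_nonneg_right main hvN.le
      _ = _ := by field_simp

/-- **GLD**: the inequalities at all places of all extensions. -/
theorem gld (h1 : S_ARC) (h2 : S_TRN) (h3 : S_LBU) (h4 : S_LOX) (h5 : S_LGX) : S_GLD := by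
  intro K _ _ n f hf
  obtain ⟨B₀, hB, h6⟩ := arch_part h1 h2 h4 K n f hf
  obtain ⟨m₀, hm, h7⟩ := na_part h3 h4 h5 K n f hf
  exact ⟨B₀, m₀, hB, hm, fun L _ _ _ z i N hN hT k =>
    ⟨fun v hv => h6 L z i N hN hT k v hv, fun v hv => h7 L z i N hN hT k v hv⟩⟩

end Pool.Agent.Q129.TB.Gld
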