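import Pool.Agent.Q35.TB.Enr
import Pool.Agent.Q68.TT.Mzf

/-!
# Project TB (helper35), job INX: surfaces with finitely many rational points
-/

set_option autoImplicit false

open Pool.Agent.Y720.MZ MvPolynomial Height AdmissibleAbsValues Pool.Agent.Q35.TT
open Pool.Agent.Q35.TB Pool.Agent.Q68.TT.Mzf

namespace Pool.Agent.Q129.TB.Inx

/-- a complete field in which the number field is dense -/
theorem exists_dense (L : Type) [Field L] [NumberField L] :
    ∃ (M : Type) (_ : NontriviallyNormedField M) (_ : CompleteSpace M) (σ : L →+* M),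
      DenseRange σ := by
  obtain ⟨p⟩ : Nonempty (NumberField.InfinitePlace L) := inferInstance
  have h2 : 1 < p.1 (2 : L) := by
    have h : ‖p.embedding 2‖ = p.1 (2 : L) := p.norm_embedding_eq 2
    rw [← h, map_ofNat]
    norm_num
  generalize p.1 = v at h2
  letI : NontriviallyNormedField v.Completion :=
    { (inferInstance : NormedField v.Completion) with
      non_trivial := ⟨((WithAbs.toAbs v 2 : WithAbs v) : v.Completion), by
        rw [UniformSpace.Completion.norm_coe]
        exact h2⟩ }
  refine ⟨v.Completion, inferInstance, inferInstance,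
    (UniformSpace.Completion.coeRingHom (α := WithAbs v)).comp
        ((WithAbs.equiv v).symm : L →+* WithAbs v), ?_⟩
  have h3 : Function.Surjective ((WithAbs.equiv v).symm : L →+* WithAbs v) :=
    (WithAbs.equiv v).symm.surjective
  have h4 : DenseRange ((↑) : WithAbs v → v.Completion) :=
    UniformSpace.Completion.denseRange_coe
  exact h4.comp h3.denseRange (UniformSpace.Completion.continuous_coe _)

theorem inx (h1 : S_TAF) (h2 : S_MOV) (h3 : S_CHF) (h4 : S_INV) (h5 : S_EXF) : S_INX := by
  classical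
  intro K _ _ n F hF hS D
  have hT : ∀ ε : Fin n → Fin 2, ∃ T : Set (Fin n → AlgebraicClosure K), T.Finite ∧
      ∀ (L : Type) [Field L] [NumberField L] [Algebra K L], Module.finrank K L ≤ D →
      ∀ z : Fin n → L, (∀ i, TorN (ex L (ch F ε)) z i) → ∀ φ : L →ₐ[K] AlgebraicClosure K,
        (fun j => φ (z j)) ∈ T := by
    intro ε
    obtain ⟨c1, c2, -⟩ := h3 K n F hF ε
    exact h1 K n (ch F ε) c1 (c2 hS) D
  choose T hTf hT using hT
  refine ⟨⋃ ε, pt ε '' T ε, Set.finite_iUnion fun ε => (hTf ε).image _, ?_⟩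
  intro L _ _ _ hD e he
  by_cases hall : ∀ (W : L) (X : Fin n × Fin 2 → L), Nrm X → W ^ 2 = eval X (C e * ex L F) →
    W ≠ 0 → ∀ φ : L →ₐ[K] AlgebraicClosure K, (fun p => φ (X p)) ∈ ⋃ ε, pt ε '' T ε
  · right
    exact hall
  left
  push Not at hall
  obtain ⟨W, X, hX, hW, hW0, φ, hφ⟩ := hall
  have hst : IsScalarTower ℚ K L := inferInstance
  have halg : Algebra.IsAlgebraic K L := Algebra.IsAlgebraic.tower_top (K := ℚ) K
  obtain ⟨e1, -, e3, -, -⟩ := h5 K L n F hF
  -- the chart
  set ε : Fin n → Fin 2 := fun j => if X (j, 0) = 1 then 0 else 1 with hε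
  have hXe : ∀ j, X (j, ε j) = 1 := by
    intro j
    simp only [hε]
    split_ifs with h
    · exact h
    · rcases hX j with h' | h'
      · exact absurd h' h
      · exact h'.2
  set z : Fin n → L := zc ε X with hz
  have hXz : X = pt ε z := by
    funext p
    have := pt_zc ε X (fun j => by rw [hXe j]; exact one_ne_zero) p
    rw [hXe, one_mul] at this
    rw [this]
  obtain ⟨c1, -, c3, -, -, c6, -⟩ := h3 L n (ex L F) e1 ε
  obtain ⟨i1, -, -, i4⟩ := h4 L n (ch (ex L F) ε) c1 e he
  have hne : ∃ i, ¬ TorN (C e * ch (ex L F) ε) z i := by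
    by_contra hno
    push Not at hno
    apply hφ
    rw [Set.mem_iUnion]
    refine ⟨ε, (fun j => φ (z j)), hT ε L hD z (fun i => ?_) φ, ?_⟩
    · have := ((i4 z).1 i).1 (hno i)
      rw [e3] at this
      exact this
    · rw [hXz]
      funext p
      exact (pt_map (φ : L →+* AlgebraicClosure K) ε z p).symm
  obtain ⟨i, hi⟩ := hne
  have hev : ∀ (y : Fin n → L), eval y (C e * ch (ex L F) ε) = eval (pt ε y) (C e * ex L F) := by
    intro y
    rw [map_mul, map_mul, eval_C, eval_C, c3]
  obtain ⟨M, iM, iC, σ, hσ⟩ := exists_dense L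
  have hfull := h2 L M σ hσ n (C e * ch (ex L F) ε) i1 z W i hW0
    (by rw [hev, ← hXz]; exact hW) hi
  intro hfin
  -- the finite set of abscissas
  have hB : ((fun P : L × (Fin n × Fin 2 → L) => P.2 (i, 1)) ''
      {P : L × (Fin n × Fin 2 → L) | Nrm P.2 ∧ P.1 ^ 2 = eval P.2 (C e * ex L F)}).Finite :=
    hfin.image _
  set B := (fun P : L × (Fin n × Fin 2 → L) => P.2 (i, 1)) ''
      {P : L × (Fin n × Fin 2 → L) | Nrm P.2 ∧ P.1 ^ 2 = eval P.2 (C e * ex L F)} with hBd
  set S : Finset L := insert 0 (hB.toFinset ∪ hB.toFinset.image (fun b => b⁻¹)) with hSd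
  have hinf : Infinite L := CharZero.infinite L
  obtain ⟨s₀, hs₀⟩ := Infinite.exists_notMem_finset S
  obtain ⟨z', w', hw', hpl, -, -, hg⟩ := hfull 1 one_pos (∏ s ∈ S, (MvPolynomial.X i - C s))
    ⟨Function.update z i s₀, fun k hk => by
      rw [Finset.mem_singleton] at hk
      exact Function.update_of_ne hk _ _, by
      rw [map_prod, Finset.prod_ne_zero_iff]
      intro s hs
      rw [map_sub, eval_X, eval_C, Function.update_self, sub_ne_zero]
      rintro rfl
      exact hs₀ hs⟩
  have hzS : z' i ∉ S := by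
    intro hmem
    apply hg
    rw [map_prod]
    refine Finset.prod_eq_zero hmem ?_
    rw [map_sub, eval_X, eval_C, sub_self]
  have hz0 : z' i ≠ 0 := fun h => hzS (by rw [h]; exact Finset.mem_insert_self _ _)
  have hzB : z' i ∉ B := fun h => hzS (Finset.mem_insert_of_mem (Finset.mem_union_left _
    (hB.mem_toFinset.2 h)))
  have hzB' : (z' i)⁻¹ ∉ B := fun h => hzS (Finset.mem_insert_of_mem (Finset.mem_union_right _
    (Finset.mem_image.2 ⟨_, hB.mem_toFinset.2 h, inv_inv _⟩)))
  -- the normalised point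
  set c : L := if ε i = 0 then 1 else (z' i)⁻¹ with hc
  set a : Fin n → L := Function.update (fun _ => 1) i c with ha
  have hprod : ∏ j, a j = c := by
    rw [ha, Finset.prod_update_of_mem (Finset.mem_univ i)]
    simp
  have hw2 : (c ^ 2 * w') ^ 2 = eval (fun p => a p.1 * pt ε z' p) (C e * ex L F) := by
    have h6 := c6 (pt ε z') a
    rw [hprod] at h6
    have h7 : eval (fun p => a p.1 * pt ε z' p) (C e * ex L F) =
        c ^ 4 * eval (pt ε z') (C e * ex L F) := by
      rw [map_mul, map_mul, eval_C, eval_C, h6]; ring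
    rw [h7, ← hev, ← hw']; ring
  have hai : a i = c := by rw [ha, Function.update_self]
  have haj : ∀ j, j ≠ i → a j = 1 := fun j hj => by rw [ha, Function.update_of_ne hj]
  have fin2' : ∀ b : Fin 2, b = 0 ∨ b = 1 := by decide
  have hnrm : Nrm (fun p => a p.1 * pt ε z' p) := by
    intro j
    by_cases hj : j = i
    · subst hj
      left
      show a j * pt ε z' (j, 0) = 1
      rw [hai, hc]
      rcases fin2' (ε j) with h | h
      · rw [if_pos h]
        have : pt ε z' (j, 0) = 1 := by
          have := pt_self ε z' j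
          rwa [h] at this
        rw [this, one_mul]
      · have h01 : ε j ≠ 0 := by rw [h]; decide
        rw [if_neg h01]
        have : pt ε z' (j, 0) = z' j := if_neg (fun h' => h01 h'.symm)
        rw [this, inv_mul_cancel₀ hz0]
    · have h8 : ∀ b, a j * pt ε z' (j, b) = X (j, b) := by
        intro b
        rw [haj j hj, one_mul, hXz]
        unfold pt
        split_ifs
        · rfl
        · exact hpl j (by rwa [Finset.mem_singleton])
      have h9 := hX j
      show a j * pt ε z' (j, 0) = 1 ∨ a j * pt ε z' (j, 0) = 0 ∧ a j * pt ε z' (j, 1) = 1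
      rw [h8, h8]
      exact h9
  have hmem : a i * pt ε z' (i, 1) ∈ B :=
    ⟨(c ^ 2 * w', fun p => a p.1 * pt ε z' p), ⟨hnrm, hw2⟩, rfl⟩
  rw [hai, hc] at hmem
  rcases fin2' (ε i) with h | h
  · rw [if_pos h] at hmem
    have h10 : (1 : Fin 2) ≠ ε i := by rw [h]; decide
    have : pt ε z' (i, 1) = z' i := if_neg h10
    rw [this, one_mul] at hmem
    exact hzB hmem
  · have h01 : ε i ≠ 0 := by rw [h]; decide
    rw [if_neg h01] at hmem
    have : pt ε z' (i, 1) = 1 := by
      have := pt_self ε z' i
      rwa [h] at this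
    rw [this, mul_one] at hmem
    exact hzB' hmem

end Pool.Agent.Q129.TB.Inx
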